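import Mathlib

set_option autoImplicit false

namespace Pool.Agent.H348Z.OM

/-- The ordered graph `G` on `Fin n` is contained in the ordered graph `R` on `Fin N`: there is an
order-preserving injection sending edges to edges. -/
def Contains {n N : ℕ} (G : SimpleGraph (Fin n)) (R : SimpleGraph (Fin N)) : Prop :=
  ∃ f : Fin n → Fin N, StrictMono f ∧ ∀ x y, G.Adj x y → R.Adj (f x) (f y)

/-- The ordered Ramsey number: the least `N` such that for every red/blue colouring of the edges of
the ordered complete graph on `Fin N` (red graph `R`, blue graph its complement) there is a red copy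
of `G` or a blue copy of `H`. -/
noncomputable def ordRamsey {n m : ℕ} (G : SimpleGraph (Fin n)) (H : SimpleGraph (Fin m)) : ℕ :=
  sInf {N : ℕ | ∀ R : SimpleGraph (Fin N), Contains G R ∨ Contains H Rᶜ}

/-- An ordered matching: every vertex has exactly one neighbour. -/
def IsOrdMatching {n : ℕ} (G : SimpleGraph (Fin n)) : Prop := ∀ v, ∃! w, G.Adj v w

/-- The interval chromatic number: the least `k` such that the vertex order can be cut into `k`
consecutive intervals (the fibres of a monotone map to `Fin k`), none containing both ends of an edge. -/
noncomputable def intChrom {n : ℕ} (G : SimpleGraph (Fin n)) : ℕ :=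
  sInf {k : ℕ | ∃ c : Fin n → Fin k, Monotone c ∧ ∀ x y, G.Adj x y → c x ≠ c y}

/-- The ordered matchings on `n` vertices with interval chromatic number `k`. -/
def matchings (n k : ℕ) : Set (SimpleGraph (Fin n)) := {G | IsOrdMatching G ∧ intChrom G = k}

end Pool.Agent.H348Z.OM
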