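import Pool.Agent.H348Z.OM.Trans

set_option autoImplicit false

open Finset

namespace Pool.Agent.H348Z.OM

section
variable {n : ℕ} (σ : Fin n → Fin n) (c : Fin n → ℕ) (T : ℕ)

/-- segment index -/
def seg (x : Fin n) : ℕ := (x : ℕ) / T + c x

theorem seg_mono (hc : Monotone c) {x y : Fin n} (h : x ≤ y) : seg c T x ≤ seg c T y :=
  Nat.add_le_add (Nat.div_le_div_right h) (hc h)

theorem seg_eq (hc : Monotone c) {x y : Fin n} (h : seg c T x = seg c T y) :
    (x : ℕ) / T = (y : ℕ) / T ∧ c x = c y := by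
  unfold seg at h
  rcases le_total x y with hxy | hxy
  · have h1 : (x : ℕ) / T ≤ (y : ℕ) / T := Nat.div_le_div_right hxy
    have h2 := hc hxy
    omega
  · have h1 : (y : ℕ) / T ≤ (x : ℕ) / T := Nat.div_le_div_right hxy
    have h2 := hc hxy
    omega

theorem pos_lt (hc : Monotone c) {x y : Fin n} (h : seg c T x < seg c T y) {t t' : ℕ} (ht : t < T) :
    (x : ℕ) + T * seg c T x + t < y + T * seg c T y + t' := by
  have hxy : (x : ℕ) ≤ y := by
    by_contra hcon
    have := seg_mono c T hc (show y ≤ x from Fin.le_def.2 (by omega))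
    omega
  have : T * (seg c T x + 1) ≤ T * seg c T y := Nat.mul_le_mul_left _ h
  nlinarith

theorem seg_eq_of_pos (hc : Monotone c) {x y : Fin n} {t t' : ℕ} (ht : t < T) (ht' : t' < T)
    (h : (x : ℕ) + T * seg c T x + t = y + T * seg c T y + t') : seg c T x = seg c T y := by
  rcases lt_trichotomy (seg c T x) (seg c T y) with h1 | h1 | h1
  · have := pos_lt c T hc h1 (t' := t') ht; omega
  · exact h1
  · have := pos_lt c T hc h1 (t' := t) ht'; omega

end

open Classical in
theorem exists_positions {n : ℕ} (σ : Fin n → Fin n) (hσ : ∀ x, σ (σ x) = x) (c : Fin n → ℕ)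
    (hc : Monotone c) (hcσ : ∀ x, c x ≠ c (σ x)) (k : ℕ) (hck : ∀ x, c x < k) (T D μ : ℕ)
    (hT : 0 < T) (hDμ : 8 * D * μ ≤ T)
    (hμ : ∀ i j : ℕ, (univ.filter fun x : Fin n => (x : ℕ) / T = i ∧ (σ x : ℕ) / T = j).card ≤ μ)
    (m : ℕ) (hm : 2 * n + (k + 1) * T ≤ m) (H : ℕ → ℕ → Prop) (hH : ∀ a b, H a b → H b a)
    (hdeg : ∀ a, a < m → ((range m).filter fun b => b ≠ a ∧ H a b).card ≤ D) :
    ∃ p : Fin n → ℕ, StrictMono p ∧ (∀ x, p x < m) ∧ ∀ x, ¬ H (p x) (p (σ x)) := by
  haveI : NeZero T := ⟨hT.ne'⟩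
  set L := n / T + k + 1 with hL
  have hsegL : ∀ x, seg c T x < L := by
    intro x
    have h1 : (x : ℕ) / T ≤ n / T := Nat.div_le_div_right x.2.le
    have := hck x
    unfold seg
    omega
  have hposm : ∀ (x : Fin n) (t : ℕ), t < T → (x : ℕ) + T * seg c T x + t < m := by
    intro x t ht
    have h1 : T * ((x : ℕ) / T) ≤ x := Nat.mul_div_le _ _
    have h2 := hck x
    have h3 := x.2
    have h4 : T * c x ≤ T * k := Nat.mul_le_mul_left _ h2.le
    unfold seg
    nlinarith
  let R : Fin L → Fin T → Fin L → Fin T → Prop := fun g t h t' =>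
    ∃ x : Fin n, seg c T x = g ∧ seg c T (σ x) = h ∧
      H (x + T * seg c T x + t) (σ x + T * seg c T (σ x) + t')
  have hsym : ∀ g t h t', R g t h t' → R h t' g t := by
    rintro g t h t' ⟨x, h1, h2, h3⟩
    refine ⟨σ x, h2, by rw [hσ]; exact h1, ?_⟩
    rw [hσ]
    exact hH _ _ h3
  have hE : ∀ g, 4 * (conf R g).card ≤ T ^ 2 := by
    intro g
    set Q : Finset (Fin n × Fin T × Fin T) := univ.filter fun q => seg c T q.1 = g ∧
      seg c T (σ q.1) ≠ g ∧ H (q.1 + T * seg c T q.1 + q.2.1) (σ q.1 + T * seg c T (σ q.1) + q.2.2)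
      with hQ
    have h1 : (conf R g).card ≤ Q.card := by
      refine le_trans (card_le_card ?_) (card_image_le (s := Q)
        (f := fun q => ((q.2.1, ⟨seg c T (σ q.1), hsegL _⟩, q.2.2) : Fin T × Fin L × Fin T)))
      rintro ⟨t, h, t'⟩ hq
      simp only [conf, mem_filter, mem_univ, true_and] at hq
      obtain ⟨hne, x, e1, e2, e3⟩ := hq
      rw [mem_image]
      refine ⟨(x, t, t'), ?_, ?_⟩
      · simp only [hQ, mem_filter, mem_univ, true_and]
        refine ⟨e1, ?_, e3⟩
        rw [e2]
        exact fun e => hne (Fin.ext e)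
      · simp only [Prod.mk.injEq, true_and, and_true]
        exact Fin.ext e2
    have h2 : Q.card ≤ μ * (2 * T * D) := by
      rcases Q.eq_empty_or_nonempty with hQe | ⟨q0, hq0⟩
      · rw [hQe]; simp
      set i0 := (q0.1 : ℕ) / T with hi0
      have hq0' := hq0
      simp only [hQ, mem_filter, mem_univ, true_and] at hq0'
      set W := (Ico (T * i0 + T * g) (T * i0 + T * g + 2 * T)).filter (fun a => a < m) with hW
      set P : Finset (ℕ × ℕ) := W.biUnion fun a =>
        ((range m).filter fun b => b ≠ a ∧ H a b).image fun b => (a, b) with hP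
      have hPc : P.card ≤ 2 * T * D := by
        refine card_biUnion_le.trans ?_
        calc ∑ a ∈ W, (((range m).filter fun b => b ≠ a ∧ H a b).image fun b => (a, b)).card
            ≤ ∑ _a ∈ W, D := by
              apply sum_le_sum
              intro a ha
              exact card_image_le.trans (hdeg a (mem_filter.1 ha).2)
          _ = W.card * D := by rw [sum_const, smul_eq_mul]
          _ ≤ 2 * T * D := by
              apply Nat.mul_le_mul_right
              refine (card_filter_le _ _).trans ?_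
              rw [Nat.card_Ico]; omega
      refine le_trans (card_le_mul_card_image_of_maps_to (t := P)
        (f := fun q : Fin n × Fin T × Fin T => (((q.1 : ℕ) + T * seg c T q.1 + q.2.1,
          (σ q.1 : ℕ) + T * seg c T (σ q.1) + q.2.2) : ℕ × ℕ)) ?_ μ ?_)
        (Nat.mul_le_mul_left _ hPc)
      · intro q hq
        simp only [hQ, mem_filter, mem_univ, true_and] at hq
        obtain ⟨e1, e2, e3⟩ := hq
        rw [hP, mem_biUnion]
        refine ⟨_, ?_, mem_image.2 ⟨_, ?_, rfl⟩⟩
        · rw [hW, mem_filter, mem_Ico]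
          have a1 := (seg_eq c T hc (e1.trans hq0'.1.symm)).1
          have a2 : T * ((q.1 : ℕ) / T) ≤ q.1 := Nat.mul_div_le _ _
          have a3 : (q.1 : ℕ) < T * ((q.1 : ℕ) / T + 1) := Nat.lt_mul_div_succ _ hT
          have a4 := q.2.1.2
          rw [a1, ← hi0] at a2 a3
          refine ⟨⟨?_, ?_⟩, hposm _ _ a4⟩
          · rw [e1]; omega
          · rw [e1]; nlinarith
        · rw [mem_filter, mem_range]
          refine ⟨hposm _ _ q.2.2.2, ?_, e3⟩
          intro e
          exact e2 ((seg_eq_of_pos c T hc q.2.2.2 q.2.1.2 e).trans e1)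
      · intro ab _
        set F := Q.filter fun q => (((q.1 : ℕ) + T * seg c T q.1 + q.2.1,
          (σ q.1 : ℕ) + T * seg c T (σ q.1) + q.2.2) : ℕ × ℕ) = ab with hF
        rcases F.eq_empty_or_nonempty with hFe | ⟨q1, hq1⟩
        · rw [hFe]; simp
        refine le_trans ?_ (hμ i0 ((σ q1.1 : ℕ) / T))
        have hq1' := hq1
        simp only [hF, hQ, mem_filter, mem_univ, true_and] at hq1'
        apply card_le_card_of_injOn (fun q => q.1)
        · intro q hq
          simp only [hF, hQ, coe_filter, mem_filter, mem_univ, true_and, Set.mem_setOf_eq] at hq ⊢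
          refine ⟨(seg_eq c T hc (hq.1.1.trans hq0'.1.symm)).1, ?_⟩
          have e := congrArg Prod.snd (hq.2.trans hq1'.2.symm)
          exact (seg_eq c T hc (seg_eq_of_pos c T hc q.2.2.2 q1.2.2.2 e)).1
        · intro q hq q' hq' e
          simp only [hF, hQ, coe_filter, mem_filter, mem_univ, true_and, Set.mem_setOf_eq] at hq hq'
          have e' : q.1 = q'.1 := e
          have e3 := hq.2.trans hq'.2.symm
          simp only [Prod.mk.injEq, e'] at e3
          refine Prod.ext e' (Prod.ext (Fin.ext ?_) (Fin.ext ?_))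
          · omega
          · omega
    nlinarith
  obtain ⟨f, hf⟩ := exists_transversal R hsym hE
  refine ⟨fun x => x + T * seg c T x + f ⟨seg c T x, hsegL x⟩, ?_, fun x => hposm _ _ (f _).2, ?_⟩
  · intro x y hxy
    rcases (seg_mono c T hc hxy.le).eq_or_lt with e | e
    · have : (⟨seg c T x, hsegL x⟩ : Fin L) = ⟨seg c T y, hsegL y⟩ := Fin.ext e
      simp only [this, e]
      have : (x : ℕ) < y := hxy
      omega
    · exact pos_lt c T hc e (f _).2
  · intro x hx
    refine hf ⟨seg c T x, hsegL x⟩ ⟨seg c T (σ x), hsegL _⟩ ?_ ⟨x, rfl, rfl, hx⟩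
    intro e
    exact hcσ x (seg_eq c T hc (congrArg Fin.val e)).2

open Classical in
theorem exists_embedding {n : ℕ} (σ : Fin n → Fin n) (hσ : ∀ x, σ (σ x) = x) (c : Fin n → ℕ)
    (hc : Monotone c) (hcσ : ∀ x, c x ≠ c (σ x)) (k : ℕ) (hck : ∀ x, c x < k) (T D μ : ℕ)
    (hT : 0 < T) (hDμ : 8 * D * μ ≤ T)
    (hμ : ∀ i j : ℕ, (univ.filter fun x : Fin n => (x : ℕ) / T = i ∧ (σ x : ℕ) / T = j).card ≤ μ)
    (m s : ℕ) (hm : 2 * n + (k + 1) * T ≤ m) (hs0 : 0 < s) (hs : n ≤ D * s)
    (B : ℕ → ℕ → Prop) (hB : ∀ a b, B a b → B b a)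
    (hdeg : ∀ a, a < m * s → ((range (m * s)).filter fun b => b ≠ a ∧ B a b).card < n) :
    ∃ f : Fin n → ℕ, StrictMono f ∧ (∀ x, f x < m * s) ∧ ∀ x, ¬ B (f x) (f (σ x)) := by
  let H : ℕ → ℕ → Prop := fun a b => ∀ i < s, ∀ j < s, B (a * s + i) (b * s + j)
  have hH : ∀ a b, H a b → H b a := fun a b h i hi j hj => hB _ _ (h j hj i hi)
  have hdegH : ∀ a, a < m → ((range m).filter fun b => b ≠ a ∧ H a b).card ≤ D := by
    intro a ha
    have h1 := hdeg (a * s) (Nat.mul_lt_mul_of_pos_right ha hs0)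
    have h2 : (((range m).filter fun b => b ≠ a ∧ H a b) ×ˢ range s).card ≤
        ((range (m * s)).filter fun b => b ≠ a * s ∧ B (a * s) b).card := by
      apply card_le_card_of_injOn (fun q => q.1 * s + q.2)
      · rintro ⟨b, j⟩ hq
        simp only [coe_product, coe_filter, mem_range, coe_range, Set.mem_prod, Set.mem_setOf_eq,
          Set.mem_Iio] at hq ⊢
        obtain ⟨⟨b1, b2, b3⟩, hj⟩ := hq
        refine ⟨by nlinarith, ?_, by simpa using b3 0 hs0 j hj⟩
        intro e
        apply b2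
        have e1 : (b * s + j) / s = b := by
          rw [mul_comm, Nat.mul_add_div hs0, Nat.div_eq_of_lt hj, add_zero]
        rw [e, Nat.mul_div_cancel _ hs0] at e1
        exact e1.symm
      · rintro ⟨b, j⟩ hq ⟨b', j'⟩ hq' e
        simp only [coe_product, coe_filter, mem_range, coe_range, Set.mem_prod, Set.mem_setOf_eq,
          Set.mem_Iio] at hq hq' e
        have e1 : (b * s + j) / s = b := by
          rw [mul_comm, Nat.mul_add_div hs0, Nat.div_eq_of_lt hq.2, add_zero]
        have e2 : (b' * s + j') / s = b' := by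
          rw [mul_comm, Nat.mul_add_div hs0, Nat.div_eq_of_lt hq'.2, add_zero]
        have e3 : b = b' := by rw [← e1, ← e2, e]
        subst e3
        simp only [Prod.mk.injEq, true_and]
        omega
    rw [card_product, card_range] at h2
    have h3 : ((range m).filter fun b => b ≠ a ∧ H a b).card * s < D * s := by omega
    exact (Nat.lt_of_mul_lt_mul_right h3).le
  obtain ⟨p, hp, hpm, hpH⟩ := exists_positions σ hσ c hc hcσ k hck T D μ hT hDμ hμ m hm H hH
    (fun a ha => by convert hdegH a ha)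
  have hex : ∀ x, ∃ ij : ℕ × ℕ, ij.1 < s ∧ ij.2 < s ∧ ¬ B (p x * s + ij.1) (p (σ x) * s + ij.2) := by
    intro x
    have := hpH x
    simp only [H] at this
    push Not at this
    obtain ⟨i, hi, j, hj, h⟩ := this
    exact ⟨(i, j), hi, hj, h⟩
  choose w hw1 hw2 hw3 using hex
  let o : Fin n → ℕ := fun x => if x < σ x then (w x).1 else (w (σ x)).2
  have ho : ∀ x, o x < s := by
    intro x
    simp only [o]
    split_ifs
    · exact hw1 x
    · exact hw2 _
  refine ⟨fun x => p x * s + o x, ?_, ?_, ?_⟩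
  · intro x y hxy
    have h1 : p x + 1 ≤ p y := hp hxy
    have h2 := ho x
    have h3 : (p x + 1) * s ≤ p y * s := Nat.mul_le_mul_right _ h1
    simp only
    nlinarith
  · intro x
    have h1 : p x + 1 ≤ m := hpm x
    have h2 := ho x
    have h3 : (p x + 1) * s ≤ m * s := Nat.mul_le_mul_right _ h1
    nlinarith
  · intro x
    have hne : x ≠ σ x := fun e => hcσ x (congrArg c e)
    rcases lt_or_gt_of_ne hne with h | h
    · have e1 : o x = (w x).1 := if_pos h
      have e2 : o (σ x) = (w x).2 := by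
        simp only [o, hσ]
        rw [if_neg (not_lt.2 h.le)]
      simp only [e1, e2]
      exact hw3 x
    · have e1 : o x = (w (σ x)).2 := if_neg (not_lt.2 h.le)
      have e2 : o (σ x) = (w (σ x)).1 := by
        simp only [o, hσ]
        rw [if_pos h]
      simp only [e1, e2]
      intro hb
      have := hw3 (σ x)
      rw [hσ] at this
      exact this (hB _ _ hb)

end Pool.Agent.H348Z.OM
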