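import Mathlib

set_option autoImplicit false

open Finset

namespace Pool.Agent.H348Z.OM

variable {n : ℕ}

def Inv (σ : Fin n → Fin n) : Prop := ∀ x, σ (σ x) = x ∧ σ x ≠ x

def Col (σ : Fin n → Fin n) (k : ℕ) : Prop :=
  ∃ c : Fin n → ℕ, Monotone c ∧ (∀ x, c x < k) ∧ ∀ x, c x ≠ c (σ x)

def Cert (σ : Fin n → Fin n) (k : ℕ) (C : Finset (Fin n)) : Prop :=
  ∀ τ : Fin n → Fin n, (∀ a ∈ C, τ a = σ a) → ¬ Col τ (k - 1)

def Chain (σ : Fin n → Fin n) : ℕ → Fin n → Prop
  | 0, _ => True
  | j + 1, x => ∃ a, a < σ a ∧ σ a ≤ x ∧ Chain σ j a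

theorem Chain.mono {σ : Fin n → Fin n} {j : ℕ} {x y : Fin n} (h : Chain σ j x) (hxy : x ≤ y) :
    Chain σ j y := by
  cases j with
  | zero => trivial
  | succ j =>
    obtain ⟨a, h1, h2, h3⟩ := h
    exact ⟨a, h1, h2.trans hxy, h3⟩

theorem Chain.le {σ : Fin n → Fin n} {c : Fin n → ℕ} (hc : Monotone c) (hp : ∀ x, c x ≠ c (σ x)) :
    ∀ (j : ℕ) (x : Fin n), Chain σ j x → j ≤ c x := by
  intro j
  induction j with
  | zero => intro x _; exact Nat.zero_le _
  | succ j ih =>
    rintro x ⟨a, h1, h2, h3⟩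
    have a1 := ih a h3
    have a2 := hc h1.le
    have a3 := hc h2
    have a4 := hp a
    omega

theorem Chain.cert {σ : Fin n → Fin n} : ∀ (j : ℕ) (x : Fin n), Chain σ j x →
    ∃ C : Finset (Fin n), C.card ≤ j ∧ ∀ τ : Fin n → Fin n, (∀ a ∈ C, τ a = σ a) → Chain τ j x := by
  intro j
  induction j with
  | zero => intro x _; exact ⟨∅, by simp, fun _ _ => trivial⟩
  | succ j ih =>
    rintro x ⟨a, h1, h2, h3⟩
    obtain ⟨C, hC, hC'⟩ := ih a h3
    refine ⟨insert a C, (card_insert_le _ _).trans (by omega), fun τ hτ => ⟨a, ?_, ?_, ?_⟩⟩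
    · rw [hτ a (mem_insert_self _ _)]; exact h1
    · rw [hτ a (mem_insert_self _ _)]; exact h2
    · exact hC' τ fun b hb => hτ b (mem_insert_of_mem hb)

theorem col_of_no_chain {σ : Fin n → Fin n} (hσ : Inv σ) (K : ℕ) (h : ∀ x, ¬ Chain σ K x) :
    Col σ K := by
  classical
  let c : Fin n → ℕ := fun x => Nat.findGreatest (fun j => Chain σ j x) K
  have hspec : ∀ x, Chain σ (c x) x := fun x =>
    Nat.findGreatest_spec (P := fun j => Chain σ j x) (Nat.zero_le K) trivial
  have hlt : ∀ x, c x < K := by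
    intro x
    have h1 : c x ≤ K := Nat.findGreatest_le K
    have h2 : c x ≠ K := fun e => h x (e ▸ hspec x)
    omega
  have hstep : ∀ a, a < σ a → c a < c (σ a) := by
    intro a ha
    exact Nat.le_findGreatest (P := fun j => Chain σ j (σ a)) (hlt a) ⟨a, ha, le_rfl, hspec a⟩
  refine ⟨c, fun x y hxy => ?_, hlt, fun x => ?_⟩
  · exact Nat.le_findGreatest (P := fun j => Chain σ j y) (hlt x).le ((hspec x).mono hxy)
  · rcases lt_or_gt_of_ne (hσ x).2 with h1 | h1
    · have := hstep (σ x) (by rw [(hσ x).1]; exact h1)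
      rw [(hσ x).1] at this
      omega
    · have := hstep x h1
      omega

theorem exists_cert {σ : Fin n → Fin n} (hσ : Inv σ) (k : ℕ) (h : ¬ Col σ (k - 1)) :
    ∃ C : Finset (Fin n), C.card ≤ k ∧ Cert σ k C := by
  have : ∃ x, Chain σ (k - 1) x := by
    by_contra hcon
    push Not at hcon
    exact h (col_of_no_chain hσ _ hcon)
  obtain ⟨x, hx⟩ := this
  obtain ⟨C, hC, hC'⟩ := Chain.cert _ _ hx
  refine ⟨C, by omega, fun τ hτ => ?_⟩
  rintro ⟨c, h1, h2, h3⟩
  have := Chain.le h1 h3 _ _ (hC' τ hτ)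
  have := h2 x
  omega

open Classical in
noncomputable def MM (n k : ℕ) : Finset (Fin n → Fin n) :=
  univ.filter fun σ => Inv σ ∧ Col σ k ∧ ¬ Col σ (k - 1)

open Classical in
noncomputable def AA (k : ℕ) (S : Finset (Fin n × Fin n)) : Finset (Fin n → Fin n) :=
  univ.filter fun σ => Inv σ ∧ Col σ k ∧ (∀ p ∈ S, σ p.1 = p.2 ∧ p.1 < p.2) ∧
    ∃ C : Finset (Fin n), C.card ≤ k ∧ Cert σ k C ∧ ∀ p ∈ S, p.1 ∉ C ∧ p.2 ∉ C

def sw (σ : Fin n → Fin n) (y u : Fin n) : Fin n → Fin n :=
  fun z => Equiv.swap y u (σ (Equiv.swap y u z))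

theorem sw_sw (σ : Fin n → Fin n) (y u : Fin n) : sw (sw σ y u) y u = σ := by
  funext z; simp [sw]

theorem sw_inv {σ : Fin n → Fin n} (h : Inv σ) (y u : Fin n) : Inv (sw σ y u) := by
  intro z
  refine ⟨by simp [sw, (h _).1], fun e => (h (Equiv.swap y u z)).2 ?_⟩
  have := congrArg (Equiv.swap y u) e
  simpa [sw] using this

theorem sw_other {σ : Fin n → Fin n} (h : Inv σ) {x y u z : Fin n} (hxy : σ x = y)
    (h1 : z ≠ x) (h2 : z ≠ y) (h3 : z ≠ u) (h4 : z ≠ σ u) : sw σ y u z = σ z := by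
  unfold sw
  rw [Equiv.swap_apply_of_ne_of_ne h2 h3, Equiv.swap_apply_of_ne_of_ne]
  · intro e
    apply h1
    rw [← (h z).1, e, ← hxy, (h x).1]
  · intro e
    apply h4
    rw [← e, (h z).1]

theorem sw_x {σ : Fin n → Fin n} (h : Inv σ) {x y u : Fin n} (hxy : σ x = y) (hu : u ≠ x) :
    sw σ y u x = u := by
  unfold sw
  have : x ≠ y := fun e => (h x).2 (hxy.trans e.symm)
  rw [Equiv.swap_apply_of_ne_of_ne this hu.symm, hxy, Equiv.swap_apply_left]

theorem sw_y {σ : Fin n → Fin n} (h : Inv σ) {x y u : Fin n} (hxy : σ x = y) (hu : u ≠ x) :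
    sw σ y u y = σ u := by
  unfold sw
  rw [Equiv.swap_apply_left, Equiv.swap_apply_of_ne_of_ne _ (h u).2]
  intro e
  apply hu
  rw [← (h u).1, e, ← hxy, (h x).1]

theorem half_le {σ : Fin n → Fin n} (h : Inv σ) {c : Fin n → ℕ} (hp : ∀ x, c x ≠ c (σ x))
    {a b : ℕ} (hab : a ≠ b) :
    2 * (univ.filter fun u : Fin n => c u = a ∨ c (σ u) = b).card ≤ n := by
  classical
  set U := univ.filter fun u : Fin n => c u = a ∨ c (σ u) = b with hU
  have hinj : Function.Injective σ := fun x y e => by rw [← (h x).1, e, (h y).1]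
  have hd : Disjoint U (U.image σ) := by
    rw [disjoint_left]
    intro z hz hz'
    obtain ⟨u, hu, rfl⟩ := mem_image.1 hz'
    simp only [hU, mem_filter, mem_univ, true_and, (h u).1] at hz hu
    have := hp u
    omega
  have := card_le_univ (U ∪ U.image σ)
  rw [card_union_of_disjoint hd, card_image_of_injective _ hinj, Fintype.card_fin] at this
  omega

theorem switch_step (k q : ℕ) (S : Finset (Fin n × Fin n)) (p : Fin n × Fin n) (hp : p ∉ S)
    (hq : 2 * (q + 2 * k + 2 * S.card + 1) ≤ n) :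
    (AA k (insert p S)).card * q ≤ (AA k S).card := by
  classical
  obtain ⟨x, y⟩ := p
  rw [← mul_one (AA k S).card]
  apply Finset.card_mul_le_card_mul (fun σ τ => σ = sw τ y (τ x))
  · intro σ hσ
    simp only [AA, mem_filter, mem_univ, true_and] at hσ
    obtain ⟨hI, ⟨c, c1, c2, c3⟩, hS, C, hC, hCert, hCS⟩ := hσ
    have hxy : σ x = y := (hS _ (mem_insert_self _ _)).1
    have hlt : x < y := (hS _ (mem_insert_self _ _)).2
    have hyx : σ y = x := by rw [← hxy, (hI x).1]
    have hinj : Function.Injective σ := fun x y e => by rw [← (hI x).1, e, (hI y).1]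
    set U := univ.filter fun u : Fin n => c u = c x ∨ c (σ u) = c y with hU
    have hUc : 2 * U.card ≤ n := half_le hI c3 (by rw [← hxy]; exact c3 x)
    set Bad := U ∪ C ∪ C.image σ ∪ S.image Prod.fst ∪ S.image Prod.snd ∪ {y} with hBad
    have hBc : Bad.card ≤ U.card + k + k + S.card + S.card + 1 := by
      have a1 := card_union_le (U ∪ C ∪ C.image σ ∪ S.image Prod.fst ∪ S.image Prod.snd) {y}
      have a2 := card_union_le (U ∪ C ∪ C.image σ ∪ S.image Prod.fst) (S.image Prod.snd)
      have a3 := card_union_le (U ∪ C ∪ C.image σ) (S.image Prod.fst)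
      have a4 := card_union_le (U ∪ C) (C.image σ)
      have a5 := card_union_le U C
      have a6 : (C.image σ).card ≤ C.card := card_image_le
      have a7 : (S.image Prod.fst).card ≤ S.card := card_image_le
      have a8 : (S.image Prod.snd).card ≤ S.card := card_image_le
      rw [card_singleton] at a1
      rw [hBad]
      omega
    have hV : q ≤ (Badᶜ).card := by
      rw [card_compl, Fintype.card_fin]
      omega
    refine hV.trans ?_
    have facts : ∀ u ∈ Badᶜ, c u ≠ c x ∧ c (σ u) ≠ c y ∧ u ∉ C ∧ σ u ∉ C ∧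
        (∀ p ∈ S, u ≠ p.1 ∧ u ≠ p.2) ∧ u ≠ y ∧ u ≠ x := by
      intro u hu
      simp only [hBad, hU, mem_compl, mem_union, mem_filter, mem_univ, true_and, mem_image,
        mem_singleton, not_or, not_exists, not_and] at hu
      obtain ⟨⟨⟨⟨⟨⟨b1, b2⟩, b3⟩, b4⟩, b5⟩, b6⟩, b7⟩ := hu
      refine ⟨b1, b2, b3, fun e => b4 _ e (hI u).1, fun p hp =>
        ⟨fun e => b5 p hp e.symm, fun e => b6 p hp e.symm⟩, b7, fun e => b1 (by rw [e])⟩
    apply card_le_card_of_injOn (fun u => sw σ y u)
    · intro u hu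
      obtain ⟨b1, b2, b3, b4, b5, b6, b7⟩ := facts u hu
      have ex := sw_x hI hxy b7
      have ey := sw_y hI hxy b7
      have hI' := sw_inv hI y u
      have eu : sw σ y u u = x := by have := (hI' x).1; rwa [ex] at this
      have ev : sw σ y u (σ u) = y := by have := (hI' y).1; rwa [ey] at this
      simp only [coe_bipartiteAbove, Set.mem_setOf_eq]
      refine ⟨?_, by rw [ex, sw_sw]⟩
      simp only [AA, mem_filter, mem_univ, true_and]
      have hCx : x ∉ C := (hCS _ (mem_insert_self _ _)).1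
      have hCy : y ∉ C := (hCS _ (mem_insert_self _ _)).2
      refine ⟨hI', ⟨c, c1, c2, fun z => ?_⟩, fun p hpS => ?_, C, hC, fun τ hτ => hCert τ ?_,
        fun p hpS => hCS p (mem_insert_of_mem hpS)⟩
      · by_cases z1 : z = x
        · rw [z1, ex]; exact b1.symm
        by_cases z2 : z = y
        · rw [z2, ey]; exact b2.symm
        by_cases z3 : z = u
        · rw [z3, eu]; exact b1
        by_cases z4 : z = σ u
        · rw [z4, ev]; exact b2
        rw [sw_other hI hxy z1 z2 z3 z4]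
        exact c3 z
      · obtain ⟨d1, d2⟩ := hS p (mem_insert_of_mem hpS)
        refine ⟨?_, d2⟩
        rw [sw_other hI hxy _ _ (b5 p hpS).1.symm, d1]
        · intro e
          apply (b5 p hpS).2
          rw [← d1, e, (hI u).1]
        · intro e
          apply hp
          have : p = (x, y) := Prod.ext e (by rw [← d1, e, hxy])
          exact this ▸ hpS
        · intro e
          rw [e, hyx] at d1
          rw [e, ← d1] at d2
          exact absurd hlt (not_lt.2 d2.le)
      · intro a ha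
        rw [hτ a ha]
        exact sw_other hI hxy (fun e => hCx (e ▸ ha)) (fun e => hCy (e ▸ ha))
          (fun e => b3 (e ▸ ha)) (fun e => b4 (e ▸ ha))
    · intro u hu u' hu' e
      have e1 := congrFun e x
      simp only at e1
      rw [sw_x hI hxy (facts u hu).2.2.2.2.2.2, sw_x hI hxy (facts u' hu').2.2.2.2.2.2] at e1
      exact e1
  · intro τ _
    rw [card_le_one]
    intro a ha b hb
    rw [mem_bipartiteBelow] at ha hb
    rw [ha.2, hb.2]

theorem AA_le (k q r : ℕ) (hq : 2 * (q + 2 * k + 2 * r + 1) ≤ n) (S : Finset (Fin n × Fin n)) :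
    S.card ≤ r → (AA k S).card * q ^ S.card ≤ (MM n k).card := by
  classical
  induction S using Finset.induction_on with
  | empty =>
    intro _
    rw [card_empty, pow_zero, mul_one]
    apply card_le_card
    intro σ hσ
    simp only [AA, MM, mem_filter, mem_univ, true_and] at hσ ⊢
    obtain ⟨h1, h2, -, C, -, hC, -⟩ := hσ
    exact ⟨h1, h2, hC σ fun _ _ => rfl⟩
  | insert p S hp ih =>
    intro h
    rw [card_insert_of_notMem hp] at h ⊢
    have h1 := switch_step k q S p hp (by omega)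
    calc (AA k (insert p S)).card * q ^ (S.card + 1)
        = (AA k (insert p S)).card * q * q ^ S.card := by ring
      _ ≤ (AA k S).card * q ^ S.card := Nat.mul_le_mul_right _ h1
      _ ≤ _ := ih (by omega)

/-- the block with index `i` -/
def blk (n T i : ℕ) : Finset (Fin n) := univ.filter fun x => (x : ℕ) / T = i

theorem blk_card (n T i : ℕ) (hT : 0 < T) : (blk n T i).card ≤ T := by
  have : (blk n T i).card ≤ (range T).card := by
    apply card_le_card_of_injOn (fun x : Fin n => (x : ℕ) % T)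
    · intro x _
      simp only [coe_range, Set.mem_Iio]
      exact Nat.mod_lt _ hT
    · intro x hx y hy e
      simp only [blk, coe_filter, mem_univ, true_and, Set.mem_setOf_eq] at hx hy e
      apply Fin.ext
      rw [← Nat.div_add_mod x T, ← Nat.div_add_mod y T, hx, hy, e]
  simpa using this

/-- spread out: few edges between any two blocks -/
def Spread (σ : Fin n → Fin n) (T ν : ℕ) : Prop :=
  ∀ i j : ℕ, (univ.filter fun x : Fin n => x < σ x ∧ (x : ℕ) / T = i ∧ (σ x : ℕ) / T = j).card ≤ ν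

open Classical in
theorem bad_le (k q r T : ℕ) (hT : 0 < T) (hq : 2 * (q + 2 * k + 2 * r + 1) ≤ n)
    (hTq : 4 * T ^ 2 ≤ q) :
    ((MM n k).filter fun σ => ¬ Spread σ T (r + 2 * k)).card * 4 ^ r ≤ (n + 1) ^ 2 * (MM n k).card := by
  set J := (range (n + 1) ×ˢ range (n + 1)).sigma
    fun ij => powersetCard r (blk n T ij.1 ×ˢ blk n T ij.2) with hJ
  have h1 : ((MM n k).filter fun σ => ¬ Spread σ T (r + 2 * k)) ⊆ J.biUnion fun s => AA k s.2 := by
    intro σ hσ
    simp only [MM, Spread, mem_filter, mem_univ, true_and, not_forall, not_le] at hσ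
    obtain ⟨⟨hI, hc, hnc⟩, i, j, hij⟩ := hσ
    obtain ⟨C, hC, hCert⟩ := exists_cert hI k hnc
    set X := univ.filter fun x : Fin n => x < σ x ∧ (x : ℕ) / T = i ∧ (σ x : ℕ) / T = j with hX
    have hinj : Function.Injective σ := fun x y e => by rw [← (hI x).1, e, (hI y).1]
    have hc1 : r ≤ (X \ (C ∪ C.image σ)).card := by
      have a1 := le_card_sdiff (C ∪ C.image σ) X
      have a2 := card_union_le C (C.image σ)
      have a3 : (C.image σ).card ≤ C.card := card_image_le
      omega
    obtain ⟨Y, hY, hYc⟩ := exists_subset_card_eq hc1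
    have hYm : ∀ x ∈ Y, (x < σ x ∧ (x : ℕ) / T = i ∧ (σ x : ℕ) / T = j) ∧ x ∉ C ∧ σ x ∉ C := by
      intro x hx
      have := hY hx
      simp only [hX, mem_sdiff, mem_filter, mem_univ, true_and, mem_union, mem_image, not_or,
        not_exists, not_and] at this
      exact ⟨this.1, this.2.1, fun e => this.2.2 _ e (hI x).1⟩
    obtain ⟨x0, hx0⟩ : X.Nonempty := card_pos.1 (by omega)
    simp only [hX, mem_filter, mem_univ, true_and] at hx0
    rw [mem_biUnion]
    refine ⟨⟨(i, j), Y.image fun x => (x, σ x)⟩, ?_, ?_⟩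
    · simp only [hJ, mem_sigma, mem_product, mem_range, mem_powersetCard]
      refine ⟨⟨?_, ?_⟩, ?_, ?_⟩
      · have := Nat.div_le_self (x0 : ℕ) T
        have := x0.2
        omega
      · have := Nat.div_le_self (σ x0 : ℕ) T
        have := (σ x0).2
        omega
      · intro p hp
        obtain ⟨x, hx, rfl⟩ := mem_image.1 hp
        simp only [blk, mem_product, mem_filter, mem_univ, true_and]
        exact (hYm x hx).1.2
      · rw [card_image_of_injective _ (fun a b e => congrArg Prod.fst e), hYc]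
    · simp only [AA, mem_filter, mem_univ, true_and]
      refine ⟨hI, hc, fun p hp => ?_, C, hC, hCert, fun p hp => ?_⟩
      · obtain ⟨x, hx, rfl⟩ := mem_image.1 hp
        exact ⟨rfl, (hYm x hx).1.1⟩
      · obtain ⟨x, hx, rfl⟩ := mem_image.1 hp
        exact (hYm x hx).2
  have h2 : J.card ≤ (n + 1) ^ 2 * (T ^ 2) ^ r := by
    rw [hJ, card_sigma]
    calc ∑ ij ∈ range (n + 1) ×ˢ range (n + 1), (powersetCard r (blk n T ij.1 ×ˢ blk n T ij.2)).card
        ≤ ∑ _ij ∈ range (n + 1) ×ˢ range (n + 1), (T ^ 2) ^ r := by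
          apply sum_le_sum
          intro ij _
          rw [card_powersetCard, card_product]
          refine (Nat.choose_le_pow _ _).trans (Nat.pow_le_pow_left ?_ _)
          rw [sq]
          exact Nat.mul_le_mul (blk_card _ _ _ hT) (blk_card _ _ _ hT)
      _ = _ := by rw [sum_const, card_product, card_range, smul_eq_mul, sq (n + 1)]
  have h3 : ((MM n k).filter fun σ => ¬ Spread σ T (r + 2 * k)).card * q ^ r ≤
      J.card * (MM n k).card := by
    calc _ ≤ (∑ s ∈ J, (AA k s.2).card) * q ^ r :=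
          Nat.mul_le_mul_right _ ((card_le_card h1).trans card_biUnion_le)
      _ = ∑ s ∈ J, (AA k s.2).card * q ^ r := by rw [sum_mul]
      _ ≤ ∑ _s ∈ J, (MM n k).card := by
          apply sum_le_sum
          intro s hs
          have e : s.2.card = r := (mem_powersetCard.1 (mem_sigma.1 hs).2).2
          have := AA_le k q r hq s.2 e.le
          rwa [e] at this
      _ = _ := by rw [sum_const, smul_eq_mul]
  have h4 : 4 ^ r * (T ^ 2) ^ r ≤ q ^ r := by
    rw [← mul_pow]; exact Nat.pow_le_pow_left hTq _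
  have h5 : 0 < (T ^ 2) ^ r := by positivity
  apply Nat.le_of_mul_le_mul_right _ h5
  calc _ = ((MM n k).filter fun σ => ¬ Spread σ T (r + 2 * k)).card * (4 ^ r * (T ^ 2) ^ r) := by ring
    _ ≤ ((MM n k).filter fun σ => ¬ Spread σ T (r + 2 * k)).card * q ^ r := Nat.mul_le_mul_left _ h4
    _ ≤ J.card * (MM n k).card := h3
    _ ≤ (n + 1) ^ 2 * (T ^ 2) ^ r * (MM n k).card := Nat.mul_le_mul_right _ h2
    _ = _ := by ring

end Pool.Agent.H348Z.OM
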