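import Pool.Agent.H348Z.OM.Defs
import Pool.Agent.H348Z.OM.Embed
import Pool.Agent.H348Z.OM.Switch

set_option autoImplicit false

open Finset Filter Topology

namespace Pool.Agent.H348Z.OM

variable {n : ℕ}

def toGraph (σ : Fin n → Fin n) : SimpleGraph (Fin n) where
  Adj x y := σ x = y ∧ σ y = x ∧ x ≠ y
  symm := ⟨fun _ _ h => ⟨h.2.1, h.1, h.2.2.symm⟩⟩
  loopless := ⟨fun _ h => h.2.2 rfl⟩

theorem toGraph_adj {σ : Fin n → Fin n} (h : Inv σ) (x y : Fin n) :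
    (toGraph σ).Adj x y ↔ σ x = y := by
  constructor
  · exact fun e => e.1
  · rintro rfl
    exact ⟨rfl, (h x).1, (h x).2.symm⟩

theorem col_iff {σ : Fin n → Fin n} (h : Inv σ) (k : ℕ) :
    (∃ c : Fin n → Fin k, Monotone c ∧ ∀ x y, (toGraph σ).Adj x y → c x ≠ c y) ↔ Col σ k := by
  constructor
  · rintro ⟨c, h1, h2⟩
    exact ⟨fun x => c x, fun x y hxy => h1 hxy, fun x => (c x).2,
      fun x e => h2 x (σ x) ((toGraph_adj h _ _).2 rfl) (Fin.ext e)⟩
  · rintro ⟨c, h1, h2, h3⟩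
    refine ⟨fun x => ⟨c x, h2 x⟩, fun x y hxy => h1 hxy, fun x y hxy e => ?_⟩
    rw [toGraph_adj h] at hxy
    subst hxy
    exact h3 x (congrArg Fin.val e)

theorem intChrom_iff {σ : Fin n → Fin n} (h : Inv σ) (k : ℕ) (hk : 1 ≤ k) :
    intChrom (toGraph σ) = k ↔ Col σ k ∧ ¬ Col σ (k - 1) := by
  obtain ⟨j, rfl⟩ : ∃ j, k = j + 1 := ⟨k - 1, by omega⟩
  unfold intChrom
  rw [Nat.sInf_upward_closed_eq_succ_iff]
  · simp only [Set.mem_setOf_eq, col_iff h, Nat.add_sub_cancel]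
  · intro a b hab ha
    simp only [Set.mem_setOf_eq, col_iff h] at ha ⊢
    obtain ⟨c, h1, h2, h3⟩ := ha
    exact ⟨c, h1, fun x => (h2 x).trans_le hab, h3⟩

theorem exists_inv {G : SimpleGraph (Fin n)} (h : IsOrdMatching G) :
    ∃ σ, Inv σ ∧ G = toGraph σ := by
  choose σ h1 h2 using h
  have hI : Inv σ := fun x => ⟨(h2 _ x (h1 x).symm).symm, (h1 x).ne.symm⟩
  refine ⟨σ, hI, ?_⟩
  ext x y
  rw [toGraph_adj hI]
  exact ⟨fun e => (h2 x y e).symm, fun e => e ▸ h1 x⟩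

theorem mem_MM {k : ℕ} {σ : Fin n → Fin n} :
    σ ∈ MM n k ↔ Inv σ ∧ Col σ k ∧ ¬ Col σ (k - 1) := by simp [MM]

theorem ncard_eq (k : ℕ) (hk : 1 ≤ k) (P : SimpleGraph (Fin n) → Prop)
    [DecidablePred fun σ : Fin n → Fin n => P (toGraph σ)] :
    {G | G ∈ matchings n k ∧ P G}.ncard = ((MM n k).filter fun σ => P (toGraph σ)).card := by
  rw [← Set.ncard_coe_finset]
  symm
  apply Set.ncard_congr (fun σ _ => toGraph σ)
  · intro σ hσ
    simp only [coe_filter, Set.mem_setOf_eq, mem_MM] at hσ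
    obtain ⟨⟨h1, h2⟩, h3⟩ := hσ
    refine ⟨⟨fun v => ⟨σ v, (toGraph_adj h1 _ _).2 rfl, fun w hw => ((toGraph_adj h1 _ _).1 hw).symm⟩,
      (intChrom_iff h1 k hk).2 h2⟩, h3⟩
  · intro a b ha hb e
    simp only [coe_filter, Set.mem_setOf_eq, mem_MM] at ha hb
    funext x
    have : (toGraph b).Adj x (a x) := e ▸ (toGraph_adj ha.1.1 _ _).2 rfl
    exact ((toGraph_adj hb.1.1 _ _).1 this).symm
  · rintro G ⟨⟨h1, h2⟩, h3⟩
    obtain ⟨σ, hσ, rfl⟩ := exists_inv h1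
    refine ⟨σ, ?_, rfl⟩
    simp only [coe_filter, Set.mem_setOf_eq, mem_MM]
    exact ⟨⟨hσ, (intChrom_iff hσ k hk).1 h2⟩, h3⟩

theorem spread_two {σ : Fin n → Fin n} (h : Inv σ) {T ν : ℕ} (hs : Spread σ T ν) (i j : ℕ) :
    (univ.filter fun x : Fin n => (x : ℕ) / T = i ∧ (σ x : ℕ) / T = j).card ≤ 2 * ν := by
  classical
  have h1 := hs i j
  have h2 := hs j i
  have h3 : (univ.filter fun x : Fin n => (x : ℕ) / T = i ∧ (σ x : ℕ) / T = j) ⊆
      (univ.filter fun x : Fin n => x < σ x ∧ (x : ℕ) / T = i ∧ (σ x : ℕ) / T = j) ∪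
      (univ.filter fun x : Fin n => x < σ x ∧ (x : ℕ) / T = j ∧ (σ x : ℕ) / T = i).image σ := by
    intro x hx
    simp only [mem_filter, mem_univ, true_and, mem_union, mem_image] at hx ⊢
    rcases lt_or_gt_of_ne (h x).2 with a | a
    · right
      exact ⟨σ x, by rw [(h x).1]; exact ⟨a, hx.2, hx.1⟩, (h x).1⟩
    · left
      exact ⟨a, hx⟩
  have h4 := (card_le_card h3).trans (card_union_le _ _)
  have h5 := card_image_le (f := σ)
    (s := univ.filter fun x : Fin n => x < σ x ∧ (x : ℕ) / T = j ∧ (σ x : ℕ) / T = i)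
  omega

theorem tri_of {N : ℕ} (B : SimpleGraph (Fin N)) {a b c : Fin N} (hab : B.Adj a b) (hac : B.Adj a c)
    (hbc : B.Adj b c) : Contains (⊤ : SimpleGraph (Fin 3)) B := by
  classical
  have hcl : B.IsNClique 3 {a, b, c} := SimpleGraph.is3Clique_triple_iff.2 ⟨hab, hac, hbc⟩
  refine ⟨({a, b, c} : Finset (Fin N)).orderEmbOfFin hcl.card_eq,
    (Finset.orderEmbOfFin _ _).strictMono, fun x y hxy => ?_⟩
  exact hcl.isClique (orderEmbOfFin_mem _ _ _) (orderEmbOfFin_mem _ _ _)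
    ((Finset.orderEmbOfFin _ _).injective.ne hxy.ne)

theorem ramsey_le {σ : Fin n → Fin n} (h : Inv σ) {k T ν D m s : ℕ} (hc : Col σ k)
    (hs : Spread σ T ν) (hT : 0 < T) (hD : 8 * D * (2 * ν) ≤ T) (hm : 2 * n + (k + 1) * T ≤ m)
    (hs0 : 0 < s) (hsn : n ≤ D * s) :
    ordRamsey (toGraph σ) (⊤ : SimpleGraph (Fin 3)) ≤ m * s := by
  classical
  apply Nat.sInf_le
  intro R
  by_cases htri : Contains (⊤ : SimpleGraph (Fin 3)) Rᶜ
  · exact Or.inr htri
  left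
  by_cases hdeg : ∃ a : Fin (m * s), n ≤ (Rᶜ.neighborFinset a).card
  · obtain ⟨a, ha⟩ := hdeg
    refine ⟨(Rᶜ.neighborFinset a).orderEmbOfCardLe ha, (Finset.orderEmbOfCardLe _ _).strictMono,
      fun x y hxy => ?_⟩
    have h1 := Finset.orderEmbOfCardLe_mem (Rᶜ.neighborFinset a) ha x
    have h2 := Finset.orderEmbOfCardLe_mem (Rᶜ.neighborFinset a) ha y
    rw [SimpleGraph.mem_neighborFinset] at h1 h2
    by_contra hcon
    exact htri (tri_of _ h1 h2 ((SimpleGraph.compl_adj _ _ _).2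
      ⟨(Finset.orderEmbOfCardLe _ _).injective.ne hxy.ne, hcon⟩))
  push Not at hdeg
  obtain ⟨c, c1, c2, c3⟩ := hc
  let B : ℕ → ℕ → Prop := fun a b => ∃ (ha : a < m * s) (hb : b < m * s), Rᶜ.Adj ⟨a, ha⟩ ⟨b, hb⟩
  obtain ⟨f, f1, f2, f3⟩ := exists_embedding σ (fun x => (h x).1) c c1 c3 k c2 T D (2 * ν) hT hD
    (fun i j => by convert spread_two h hs i j) m s hm hs0 hsn B
    (fun a b ⟨ha, hb, e⟩ => ⟨hb, ha, e.symm⟩) (by
      intro a ha
      refine lt_of_le_of_lt ?_ (hdeg ⟨a, ha⟩)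
      refine le_trans (card_le_card ?_) (card_image_le (f := Fin.val))
      intro b hb
      simp only [mem_filter, mem_range] at hb
      obtain ⟨b1, -, ha', hb', e⟩ := hb
      exact mem_image.2 ⟨⟨b, b1⟩, (SimpleGraph.mem_neighborFinset _ _ _).2 e, rfl⟩)
  refine ⟨fun x => ⟨f x, f2 x⟩, fun x y hxy => f1 hxy, fun x y hxy => ?_⟩
  have hne := hxy.ne
  rw [toGraph_adj h] at hxy
  subst hxy
  by_contra hcon
  exact f3 x ⟨f2 _, f2 _, (SimpleGraph.compl_adj _ _ _).2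
    ⟨fun e => hne (f1.injective (congrArg Fin.val e)), hcon⟩⟩

theorem MM_nonempty (k M : ℕ) (hk : 2 ≤ k) (hM : k ≤ M) : (MM (2 * M) k).Nonempty := by
  obtain ⟨j, rfl⟩ : ∃ j, k = j + 2 := ⟨k - 2, by omega⟩
  let σ : Fin (2 * M) → Fin (2 * M) := fun x =>
    ⟨if (x : ℕ) < 2 * j then (if (x : ℕ) % 2 = 0 then x + 1 else x - 1) else 2 * M - 1 + 2 * j - x, by
      have := x.2
      split_ifs <;> omega⟩
  have hσ : ∀ x : Fin (2 * M), (σ x : ℕ) =
      if (x : ℕ) < 2 * j then (if (x : ℕ) % 2 = 0 then (x : ℕ) + 1 else (x : ℕ) - 1)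
        else 2 * M - 1 + 2 * j - (x : ℕ) :=
    fun x => rfl
  have hI : Inv σ := by
    intro x
    have := x.2
    constructor
    · apply Fin.ext
      rw [hσ, hσ]
      split_ifs <;> omega
    · intro e
      have e' := congrArg Fin.val e
      rw [hσ] at e'
      split_ifs at e' <;> omega
  refine ⟨σ, mem_MM.2 ⟨hI, ⟨fun x => if (x : ℕ) < 2 * j then (x + 1) / 2 else
    if (x : ℕ) < M + j then j else j + 1, ?_, ?_, ?_⟩, ?_⟩⟩
  · intro x y hxy
    have : (x : ℕ) ≤ y := hxy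
    simp only
    split_ifs <;> omega
  · intro x
    simp only
    split_ifs <;> omega
  · intro x
    have := x.2
    simp only [hσ]
    split_ifs <;> omega
  · rintro ⟨c, c1, c2, c3⟩
    have hch : ∀ i, ∀ hi : i ≤ j, Chain σ i ⟨2 * i, by omega⟩ := by
      intro i
      induction i with
      | zero => intro _; trivial
      | succ i ih =>
        intro hi
        refine ⟨⟨2 * i, by omega⟩, ?_, ?_, ih (by omega)⟩
        · rw [Fin.lt_def, hσ]
          simp only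
          split_ifs <;> omega
        · rw [Fin.le_def, hσ]
          simp only
          split_ifs <;> omega
    have h2 : Chain σ (j + 1) (σ ⟨2 * j, by omega⟩) := by
      refine ⟨⟨2 * j, by omega⟩, ?_, le_rfl, hch j le_rfl⟩
      rw [Fin.lt_def, hσ]
      simp only
      split_ifs <;> omega
    have h3 := Chain.le c1 c3 _ _ h2
    have h4 := c2 (σ ⟨2 * j, by omega⟩)
    omega

theorem pow_big (j : ℕ) : 2 ^ 18 * (j + 40) ^ 2 ≤ 2 ^ (j + 40) := by
  induction j with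
  | zero => norm_num
  | succ j ih =>
    have : 2 ^ (j + 1 + 40) = 2 * 2 ^ (j + 40) := by ring
    rw [this]
    have h2 : (j + 1 + 40) ^ 2 ≤ 2 * (j + 40) ^ 2 := by
      have : 2 * (j + 40) ^ 2 = (j + 1 + 40) ^ 2 + (j * j + 78 * j + 1519) := by ring
      omega
    omega

theorem params (k n : ℕ) (hn : 2 ^ (k + 40) ≤ n) :
    ∃ q r T D m s : ℕ, 0 < T ∧ 2 * (q + 2 * k + 2 * r + 1) ≤ n ∧ 4 * T ^ 2 ≤ q ∧
      (n + 1) ^ 4 ≤ 4 ^ r ∧ 8 * D * (2 * (r + 2 * k)) ≤ T ∧ 2 * n + (k + 1) * T ≤ m ∧ 0 < s ∧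
      n ≤ D * s ∧ ((m * s : ℕ) : ℝ) ≤ 12288 * (n : ℝ) ^ (3 / 2 : ℝ) * Real.log n := by
  set l := Nat.log 2 n with hl
  have hn0 : 0 < n := lt_of_lt_of_le (by positivity) hn
  have hl1 : k + 40 ≤ l := Nat.le_log_of_pow_le (by norm_num) hn
  have hl2 : 2 ^ l ≤ n := Nat.pow_log_le_self 2 hn0.ne'
  have hl3 : n < 2 ^ (l + 1) := Nat.lt_pow_succ_log_self (by norm_num) n
  have hl4 : 2 ^ 18 * l ^ 2 ≤ n := by
    have := pow_big (l - 40)
    rw [show l - 40 + 40 = l by omega] at this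
    exact this.trans hl2
  set T := Nat.sqrt (n / 16) with hT
  set μ := 4 * (l + 1 + k) with hμ
  have hμ0 : 0 < μ := by omega
  have hμl : μ ≤ 8 * l := by omega
  have hT1 : T ^ 2 ≤ n / 16 := Nat.sqrt_le' _
  have hT2 : n / 16 < (T + 1) ^ 2 := Nat.lt_succ_sqrt' _
  have hT3 : 128 * l ≤ T := by
    rw [hT, Nat.le_sqrt', Nat.le_div_iff_mul_le (by norm_num)]
    nlinarith
  set D := T / (8 * μ) with hD
  have hD1 : 8 * μ * D ≤ T := Nat.mul_div_le _ _
  have hD2 : T < 8 * μ * (D + 1) := Nat.lt_mul_div_succ _ (by omega)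
  have hD0 : 0 < D := Nat.div_pos (by omega) (by omega)
  have hD3 : T ≤ 16 * μ * D := by nlinarith
  have hs1 : D * (n / D) ≤ n := Nat.mul_div_le _ _
  have hs2 : n < D * (n / D + 1) := Nat.lt_mul_div_succ _ hD0
  have hTn : T * T ≤ n := by
    have : T ^ 2 = T * T := sq T
    omega
  have hDn : D ≤ n := by nlinarith
  refine ⟨n / 4, 2 * (l + 1), T, D, 3 * n, n / D + 1, by omega, ?_, by omega, ?_, ?_, ?_,
    Nat.succ_pos _, hs2.le, ?_⟩
  · have : 1000 * l ≤ n := by nlinarith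
    omega
  · calc (n + 1) ^ 4 ≤ (2 ^ (l + 1)) ^ 4 := Nat.pow_le_pow_left hl3 _
      _ = 4 ^ (2 * (l + 1)) := by
        rw [← pow_mul, show (4 : ℕ) = 2 ^ 2 by norm_num, ← pow_mul]
        congr 1
        ring
  · have : 2 * (2 * (l + 1) + 2 * k) = μ := by omega
    rw [this]
    nlinarith
  · have : (k + 1) * T ≤ T * T := Nat.mul_le_mul_right _ (by omega)
    omega
  · set N := 3 * n * (n / D + 1) with hN
    have a1 : N * D ≤ 6 * n ^ 2 := by
      have : N * D = 3 * n * (D * (n / D) + D) := by rw [hN]; ring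
      rw [this]
      nlinarith
    have a2 : N * T ≤ 768 * l * n ^ 2 := by
      calc N * T ≤ N * (16 * μ * D) := Nat.mul_le_mul_left _ hD3
        _ = 16 * μ * (N * D) := by ring
        _ ≤ 16 * (8 * l) * (6 * n ^ 2) := by gcongr
        _ = _ := by ring
    have a3 : n ≤ (8 * T) ^ 2 := by
      have : n < 16 * (T + 1) ^ 2 := by omega
      nlinarith
    have hnR : (0 : ℝ) < n := by exact_mod_cast hn0
    have b1 : Real.sqrt n ≤ 8 * T := by
      rw [Real.sqrt_le_iff]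
      exact ⟨by positivity, by exact_mod_cast a3⟩
    have b2 : (l : ℝ) ≤ 2 * Real.log n := by
      have h1 : Real.log ((2 : ℝ) ^ l) ≤ Real.log n :=
        Real.log_le_log (by positivity) (by exact_mod_cast hl2)
      rw [Real.log_pow] at h1
      have h2 := Real.log_two_gt_d9
      have h3 : (0 : ℝ) ≤ l := Nat.cast_nonneg _
      nlinarith
    have b3 : (n : ℝ) ^ (3 / 2 : ℝ) * Real.sqrt n = n ^ 2 := by
      rw [Real.sqrt_eq_rpow, ← Real.rpow_add hnR]
      norm_num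
    have b4 : (N : ℝ) * T ≤ 768 * l * n ^ 2 := by exact_mod_cast a2
    have b5 : 0 < Real.sqrt n := Real.sqrt_pos.2 hnR
    apply le_of_mul_le_mul_right _ b5
    have b6 : (0 : ℝ) ≤ N := Nat.cast_nonneg _
    calc (N : ℝ) * Real.sqrt n ≤ N * (8 * T) := by gcongr
      _ = 8 * (N * T) := by ring
      _ ≤ 8 * (768 * l * n ^ 2) := by gcongr
      _ ≤ 8 * (768 * (2 * Real.log n) * n ^ 2) := by gcongr
      _ = 12288 * ((n : ℝ) ^ (3 / 2 : ℝ) * Real.sqrt n) * Real.log n := by rw [b3]; ring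
      _ = _ := by ring

theorem main : ∃ C : ℝ, ∀ k : ℕ, 2 ≤ k → Tendsto (fun M : ℕ =>
    (({G | G ∈ matchings (2 * M) k ∧ (ordRamsey G (⊤ : SimpleGraph (Fin 3)) : ℝ) ≤
      C * ((2 * M : ℕ) : ℝ) ^ (3 / 2 : ℝ) * Real.log ((2 * M : ℕ) : ℝ)}.ncard : ℝ) /
      ((matchings (2 * M) k).ncard : ℝ))) atTop (𝓝 1) := by
  classical
  refine ⟨12288, fun k hk => ?_⟩
  have hlow : Tendsto (fun M : ℕ => 1 - 1 / ((M : ℝ) + 1)) atTop (𝓝 1) := by
    have := (tendsto_const_nhds (x := (1 : ℝ))).sub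
      (tendsto_one_div_add_atTop_nhds_zero_nat (𝕜 := ℝ))
    simpa using this
  refine tendsto_of_tendsto_of_tendsto_of_le_of_le' hlow tendsto_const_nhds ?_ ?_
  · filter_upwards [eventually_ge_atTop (2 ^ (k + 40))] with M hM
    obtain ⟨q, r, T, D, m, s, p1, p2, p3, p4, p5, p6, p7, p8, p9⟩ := params k (2 * M) (by omega)
    have hkM : k ≤ M := by
      have : k + 40 < 2 ^ (k + 40) := Nat.lt_two_pow_self
      omega
    have e1 : (matchings (2 * M) k).ncard = (MM (2 * M) k).card := by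
      have := ncard_eq (n := 2 * M) k (by omega) (fun _ => True)
      simpa using this
    rw [ncard_eq k (by omega) (fun G => (ordRamsey G (⊤ : SimpleGraph (Fin 3)) : ℝ) ≤
      12288 * ((2 * M : ℕ) : ℝ) ^ (3 / 2 : ℝ) * Real.log ((2 * M : ℕ) : ℝ)), e1]
    have hpos : 0 < (MM (2 * M) k).card := card_pos.2 (MM_nonempty k M hk hkM)
    have hb := bad_le (n := 2 * M) k q r T p1 p2 p3
    set bad := ((MM (2 * M) k).filter fun σ => ¬ Spread σ T (r + 2 * k)).card with hbad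
    have hb2 : bad * (M + 1) ≤ (MM (2 * M) k).card := by
      have c1 : bad * (2 * M + 1) ^ 4 ≤ (2 * M + 1) ^ 2 * (MM (2 * M) k).card :=
        (Nat.mul_le_mul_left _ p4).trans hb
      have c2 : (2 * M + 1) ^ 2 * (bad * (2 * M + 1) ^ 2) ≤ (2 * M + 1) ^ 2 * (MM (2 * M) k).card := by
        calc _ = bad * (2 * M + 1) ^ 4 := by ring
          _ ≤ _ := c1
      have c3 := Nat.le_of_mul_le_mul_left c2 (by positivity)
      refine le_trans (Nat.mul_le_mul_left _ ?_) c3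
      nlinarith
    have hg : (MM (2 * M) k).card ≤ ((MM (2 * M) k).filter fun σ =>
        (ordRamsey (toGraph σ) (⊤ : SimpleGraph (Fin 3)) : ℝ) ≤
          12288 * ((2 * M : ℕ) : ℝ) ^ (3 / 2 : ℝ) * Real.log ((2 * M : ℕ) : ℝ)).card + bad := by
      rw [← card_filter_add_card_filter_not (s := MM (2 * M) k) (fun σ => Spread σ T (r + 2 * k))]
      apply Nat.add_le_add_right
      apply card_le_card
      intro σ hσ
      rw [mem_filter] at hσ ⊢
      refine ⟨hσ.1, le_trans ?_ p9⟩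
      have := mem_MM.1 hσ.1
      exact_mod_cast ramsey_le this.1 this.2.1 hσ.2 p1 p5 p6 p7 p8
    have hposR : (0 : ℝ) < (MM (2 * M) k).card := by exact_mod_cast hpos
    rw [le_div_iff₀ hposR]
    have d1 : (bad : ℝ) * (M + 1) ≤ (MM (2 * M) k).card := by exact_mod_cast hb2
    have d2 : (bad : ℝ) ≤ 1 / ((M : ℝ) + 1) * (MM (2 * M) k).card := by
      rw [one_div, inv_mul_eq_div, le_div_iff₀ (by positivity)]
      exact d1
    have d3 := (Nat.cast_le (α := ℝ)).2 hg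
    push_cast at d3 ⊢
    linarith
  · filter_upwards with M
    apply div_le_one_of_le₀ _ (Nat.cast_nonneg _)
    rw [Nat.cast_le]
    exact Set.ncard_le_ncard (fun G hG => hG.1) (Set.toFinite _)

end Pool.Agent.H348Z.OM
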