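import Mathlib

set_option autoImplicit false

open Finset

namespace Pool.Agent.H348Z.OM

section
variable {G : Type} [Fintype G] [DecidableEq G] {T : ℕ} [NeZero T]
  (R : G → Fin T → G → Fin T → Prop)

open Classical in
/-- partial independent transversals on `S`, normalised to `0` outside -/
noncomputable def ind (S : Finset G) : Finset (G → Fin T) :=
  univ.filter fun f => (∀ g, g ∉ S → f g = 0) ∧ ∀ g ∈ S, ∀ h ∈ S, g ≠ h → ¬ R g (f g) h (f h)

open Classical in
noncomputable def conf (g : G) : Finset (Fin T × G × Fin T) :=
  univ.filter fun q => q.2.1 ≠ g ∧ R g q.1 q.2.1 q.2.2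

theorem mem_ind (S : Finset G) (f : G → Fin T) : f ∈ ind R S ↔
    (∀ g, g ∉ S → f g = 0) ∧ ∀ g ∈ S, ∀ h ∈ S, g ≠ h → ¬ R g (f g) h (f h) := by
  simp [ind]

theorem fiber_le (S : Finset G) (h : G) (t' : Fin T) :
    ((ind R S).filter fun f => f h = t').card ≤ (ind R (S.erase h)).card := by
  apply Finset.card_le_card_of_injOn (fun f => Function.update f h 0)
  · intro f hf
    simp only [coe_filter, Set.mem_setOf_eq] at hf
    obtain ⟨hf, -⟩ := hf
    rw [mem_ind] at hf
    simp only [mem_coe]
    rw [mem_ind]
    constructor
    · intro g hg
      by_cases hgh : g = h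
      · subst hgh; simp
      · rw [Function.update_of_ne hgh]
        apply hf.1
        intro hgS
        exact hg (mem_erase.2 ⟨hgh, hgS⟩)
    · intro g hg g' hg' hne
      rw [mem_erase] at hg hg'
      rw [Function.update_of_ne hg.1, Function.update_of_ne hg'.1]
      exact hf.2 g hg.2 g' hg'.2 hne
  · intro f hf f' hf' he
    simp only [coe_filter, Set.mem_setOf_eq] at hf hf'
    funext g
    by_cases hgh : g = h
    · subst hgh; rw [hf.2, hf'.2]
    · have := congrFun he g
      simp only [Function.update_of_ne hgh] at this
      exact this

theorem step (hsym : ∀ g t h t', R g t h t' → R h t' g t)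
    (hE : ∀ g, 4 * (conf R g).card ≤ T ^ 2) :
    ∀ (m : ℕ) (S : Finset G), S.card = m → ∀ g, g ∉ S →
      T * (ind R S).card ≤ 2 * (ind R (insert g S)).card := by
  classical
  intro m
  induction m using Nat.strong_induction_on with
  | _ m ih =>
    intro S hS g hg
    have hT : 0 < T := Nat.pos_of_ne_zero (NeZero.ne T)
    set I := ind R S with hI
    set P : Finset ((G → Fin T) × Fin T) := I ×ˢ univ with hP
    set good := P.filter fun p => Function.update p.1 g p.2 ∈ ind R (insert g S) with hgood
    set bad := P.filter fun p => ¬ Function.update p.1 g p.2 ∈ ind R (insert g S) with hbad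
    have h1 : good.card + bad.card = I.card * T := by
      rw [hgood, hbad, Finset.card_filter_add_card_filter_not, hP, card_product]
      simp
    have h2 : good.card ≤ (ind R (insert g S)).card := by
      apply Finset.card_le_card_of_injOn (fun p => Function.update p.1 g p.2)
      · intro p hp
        simp only [hgood, coe_filter, Set.mem_setOf_eq] at hp
        exact hp.2
      · intro p hp p' hp' he
        simp only [hgood, hP, coe_filter, Set.mem_setOf_eq, mem_product] at hp hp'
        have e1 : p.2 = p'.2 := by
          have := congrFun he g
          simpa using this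
        have e2 : p.1 = p'.1 := by
          funext x
          by_cases hx : x = g
          · subst hx
            rw [((mem_ind R S _).1 hp.1.1).1 x hg, ((mem_ind R S _).1 hp'.1.1).1 x hg]
          · have := congrFun he x
            simp only [Function.update_of_ne hx] at this
            exact this
        exact Prod.ext e2 e1
    have h3 : bad ⊆ ((conf R g).filter fun q => q.2.1 ∈ S).biUnion
        fun q => ((I.filter fun f => f q.2.1 = q.2.2).image fun f => (f, q.1)) := by
      intro p hp
      simp only [hbad, hP, mem_filter, mem_product, mem_univ, and_true] at hp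
      obtain ⟨hpI, hp⟩ := hp
      have hpI' := (mem_ind R S _).1 hpI
      rw [mem_ind] at hp
      have : ∃ h ∈ S, R g p.2 h (p.1 h) := by
        by_contra hcon
        push Not at hcon
        apply hp
        constructor
        · intro x hx
          rw [mem_insert, not_or] at hx
          rw [Function.update_of_ne hx.1]
          exact hpI'.1 x hx.2
        · intro x hx y hy hxy
          rw [mem_insert] at hx hy
          rcases hx with rfl | hx
          · rcases hy with rfl | hy
            · exact absurd rfl hxy
            · rw [Function.update_self, Function.update_of_ne hxy.symm]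
              exact hcon y hy
          · have hxg : x ≠ g := fun e => hg (e ▸ hx)
            rcases hy with rfl | hy
            · rw [Function.update_self, Function.update_of_ne hxy]
              exact fun hr => hcon x hx (hsym _ _ _ _ hr)
            · have hyg : y ≠ g := fun e => hg (e ▸ hy)
              rw [Function.update_of_ne hxg, Function.update_of_ne hyg]
              exact hpI'.2 x hx y hy hxy
      obtain ⟨h, hh, hr⟩ := this
      rw [mem_biUnion]
      refine ⟨(p.2, h, p.1 h), ?_, ?_⟩
      · simp only [conf, mem_filter, mem_univ, true_and]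
        exact ⟨⟨fun e => hg (e ▸ hh), hr⟩, hh⟩
      · rw [mem_image]
        exact ⟨p.1, mem_filter.2 ⟨hpI, rfl⟩, rfl⟩
    have h4 : T * bad.card ≤ (conf R g).card * (2 * I.card) := by
      calc T * bad.card ≤ T * ∑ q ∈ (conf R g).filter (fun q => q.2.1 ∈ S),
            ((I.filter fun f => f q.2.1 = q.2.2).image fun f => (f, q.1)).card :=
            Nat.mul_le_mul_left _ ((card_le_card h3).trans card_biUnion_le)
        _ = ∑ q ∈ (conf R g).filter (fun q => q.2.1 ∈ S),
            T * ((I.filter fun f => f q.2.1 = q.2.2).image fun f => (f, q.1)).card := by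
            rw [Finset.mul_sum]
        _ ≤ ∑ _q ∈ (conf R g).filter (fun q => q.2.1 ∈ S), 2 * I.card := by
            apply Finset.sum_le_sum
            intro q hq
            have hqS : q.2.1 ∈ S := (mem_filter.1 hq).2
            have a1 := ih (S.erase q.2.1).card (by
              rw [card_erase_of_mem hqS, ← hS]
              have := card_pos.2 ⟨_, hqS⟩
              omega) (S.erase q.2.1) rfl q.2.1 (notMem_erase _ _)
            rw [insert_erase hqS] at a1
            exact (Nat.mul_le_mul_left _ (card_image_le.trans (fiber_le R S _ _))).trans a1
        _ ≤ (conf R g).card * (2 * I.card) := by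
            rw [Finset.sum_const, smul_eq_mul]
            exact Nat.mul_le_mul_right _ (card_filter_le _ _)
    have h5 := hE g
    have h6 : T * (2 * bad.card) ≤ T * (T * I.card) := by nlinarith
    have h7 : 2 * bad.card ≤ T * I.card := Nat.le_of_mul_le_mul_left h6 hT
    nlinarith

theorem exists_transversal (hsym : ∀ g t h t', R g t h t' → R h t' g t)
    (hE : ∀ g, 4 * (conf R g).card ≤ T ^ 2) :
    ∃ f : G → Fin T, ∀ g h, g ≠ h → ¬ R g (f g) h (f h) := by
  classical
  have hT : 0 < T := Nat.pos_of_ne_zero (NeZero.ne T)
  have key : ∀ S : Finset G, 0 < (ind R S).card := by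
    intro S
    induction S using Finset.induction_on with
    | empty =>
      apply card_pos.2
      exact ⟨fun _ => 0, (mem_ind R _ _).2 ⟨fun _ _ => rfl, by simp⟩⟩
    | insert g S hg ih =>
      have := step R hsym hE _ S rfl g hg
      have h2 : 0 < T * (ind R S).card := Nat.mul_pos hT ih
      omega
  obtain ⟨f, hf⟩ := card_pos.1 (key univ)
  exact ⟨f, fun g h hne => ((mem_ind R _ _).1 hf).2 g (mem_univ _) h (mem_univ _) hne⟩

end

end Pool.Agent.H348Z.OM
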